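import Pool.Agent.H42.KPO.DISC

set_option autoImplicit false

/-! Convexity for positively homogeneous densities of degree zero (module CONE of kpo_modules). -/

open MeasureTheory Metric Set Topology Filter
open scoped RealInnerProductSpace ENNReal

namespace Pool.Agent.H42.KPO

open Pool.Agent.H52.KP

/-- polar coordinates in `ℝ ^ K` -/
theorem lint_sphere {K : ℕ} (hK : 2 ≤ K) (Φ : Eu K → ℝ≥0∞) (hΦ : Measurable Φ) :
    ∫⁻ x, Φ x = ∫⁻ ω : sphere (0 : Eu K) 1, (∫⁻ t in Ioi (0 : ℝ),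
      ENNReal.ofReal (t ^ (K - 1)) * Φ (t • (ω : Eu K))) ∂((volume : Measure (Eu K)).toSphere) := by
  have : Nontrivial (Eu K) := by
    apply Module.nontrivial_of_finrank_pos (R := ℝ)
    rw [finrank_euclideanSpace_fin]
    omega
  have hmeas : Measurable fun p : sphere (0 : Eu K) 1 × Ioi (0 : ℝ) =>
      Φ (((homeomorphUnitSphereProd (Eu K)).symm p : ({0}ᶜ : Set (Eu K))) : Eu K) :=
    hΦ.comp (measurable_subtype_coe.comp (homeomorphUnitSphereProd (Eu K)).symm.measurable)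
  calc ∫⁻ x, Φ x = ∫⁻ x in ({0}ᶜ : Set (Eu K)), Φ x := by
        rw [restrict_compl_singleton]
    _ = ∫⁻ x : ({0}ᶜ : Set (Eu K)), Φ x ∂(Measure.comap Subtype.val volume) :=
        (lintegral_subtype_comap (measurableSet_singleton _).compl Φ).symm
    _ = ∫⁻ p, Φ (((homeomorphUnitSphereProd (Eu K)).symm p : ({0}ᶜ : Set (Eu K))) : Eu K)
          ∂((volume : Measure (Eu K)).toSphere.prod
            (Measure.volumeIoiPow (Module.finrank ℝ (Eu K) - 1))) := by
        rw [← ((volume : Measure (Eu K)).measurePreserving_homeomorphUnitSphereProd).lintegral_comp_emb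
          (Homeomorph.measurableEmbedding _)]
        refine lintegral_congr fun x => ?_
        rw [Homeomorph.symm_apply_apply]
    _ = ∫⁻ ω : sphere (0 : Eu K) 1, (∫⁻ t : Ioi (0 : ℝ), Φ (t.1 • (ω : Eu K))
          ∂(Measure.volumeIoiPow (K - 1))) ∂((volume : Measure (Eu K)).toSphere) := by
        rw [lintegral_prod _ hmeas.aemeasurable, finrank_euclideanSpace_fin]
        rfl
    _ = _ := by
        refine lintegral_congr fun ω => ?_
        have hm1 : Measurable fun t : Ioi (0 : ℝ) => ENNReal.ofReal (t.1 ^ (K - 1)) :=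
          ENNReal.measurable_ofReal.comp (measurable_subtype_coe.pow_const _)
        have hm2 : Measurable fun t : Ioi (0 : ℝ) => Φ (t.1 • (ω : Eu K)) :=
          hΦ.comp (measurable_subtype_coe.smul_const _)
        rw [Measure.volumeIoiPow, lintegral_withDensity_eq_lintegral_mul _ hm1 hm2]
        exact lintegral_subtype_comap measurableSet_Ioi
          (fun t : ℝ => ENNReal.ofReal (t ^ (K - 1)) * Φ (t • (ω : Eu K)))

/-- the functional of the module, as a lower integral -/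
noncomputable def ZL {K : ℕ} (G : Eu K → ℝ) (xb : Eu K) (P s : ℝ) : ℝ≥0∞ :=
  ∫⁻ y : Eu K × ℝ, if ‖y.1‖ ^ 2 + y.2 ^ 2 - 2 * ⟪y.1, xb⟫ + P ≤ s
    then ENNReal.ofReal (G y.1) else 0

theorem measurable_quad {K : ℕ} (xb : Eu K) (P : ℝ) :
    Measurable fun y : Eu K × ℝ => ‖y.1‖ ^ 2 + y.2 ^ 2 - 2 * ⟪y.1, xb⟫ + P := by
  have : Continuous fun y : Eu K × ℝ => ‖y.1‖ ^ 2 + y.2 ^ 2 - 2 * ⟪y.1, xb⟫ + P := by
    fun_prop
  exact this.measurable

theorem measurable_integrand {K : ℕ} {G : Eu K → ℝ} (hG : Measurable G) (xb : Eu K) (P s : ℝ) :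
    Measurable fun y : Eu K × ℝ => if ‖y.1‖ ^ 2 + y.2 ^ 2 - 2 * ⟪y.1, xb⟫ + P ≤ s
      then ENNReal.ofReal (G y.1) else 0 :=
  Measurable.ite (measurableSet_le (measurable_quad xb P) measurable_const)
    (ENNReal.measurable_ofReal.comp (hG.comp measurable_fst)) measurable_const

theorem ZL_ne_top {K : ℕ} {G : Eu K → ℝ} {C : ℝ} (hC : ∀ x, 0 ≤ G x ∧ G x ≤ C) (xb : Eu K)
    (P s : ℝ) : ZL G xb P s ≠ ⊤ := by
  set R : ℝ := 1 + |s - P + ‖xb‖ ^ 2| with hR
  have hsub : ∀ y : Eu K × ℝ, ‖y.1‖ ^ 2 + y.2 ^ 2 - 2 * ⟪y.1, xb⟫ + P ≤ s →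
      y ∈ closedBall xb R ×ˢ Icc (-R) R := by
    intro y hy
    have h1 : ‖y.1 - xb‖ ^ 2 = ‖y.1‖ ^ 2 - 2 * ⟪y.1, xb⟫ + ‖xb‖ ^ 2 := norm_sub_sq_real _ _
    have h2 : ‖y.1 - xb‖ ^ 2 + y.2 ^ 2 ≤ |s - P + ‖xb‖ ^ 2| := by
      have := le_abs_self (s - P + ‖xb‖ ^ 2)
      rw [h1]
      linarith
    have h0 : 0 ≤ |s - P + ‖xb‖ ^ 2| := abs_nonneg _
    have h3 : ‖y.1 - xb‖ ≤ R := by
      by_contra hc
      push Not at hc
      nlinarith [norm_nonneg (y.1 - xb), sq_nonneg y.2]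
    have h4 : |y.2| ≤ R := by
      have h5 : |y.2| ^ 2 ≤ |s - P + ‖xb‖ ^ 2| := by
        rw [sq_abs]
        nlinarith [sq_nonneg ‖y.1 - xb‖]
      by_contra hc
      push Not at hc
      nlinarith [abs_nonneg y.2]
    refine ⟨?_, abs_le.1 h4⟩
    rw [mem_closedBall, dist_eq_norm]
    exact h3
  have hle : ZL G xb P s ≤ ∫⁻ _y in closedBall xb R ×ˢ Icc (-R) R, ENNReal.ofReal C := by
    rw [← lintegral_indicator (measurableSet_closedBall.prod measurableSet_Icc)]
    refine lintegral_mono fun y => ?_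
    by_cases hy : ‖y.1‖ ^ 2 + y.2 ^ 2 - 2 * ⟪y.1, xb⟫ + P ≤ s
    · show (if ‖y.1‖ ^ 2 + y.2 ^ 2 - 2 * ⟪y.1, xb⟫ + P ≤ s
        then ENNReal.ofReal (G y.1) else 0) ≤ _
      rw [if_pos hy, indicator_of_mem (hsub y hy)]
      exact ENNReal.ofReal_le_ofReal (hC _).2
    · show (if ‖y.1‖ ^ 2 + y.2 ^ 2 - 2 * ⟪y.1, xb⟫ + P ≤ s
        then ENNReal.ofReal (G y.1) else 0) ≤ _
      rw [if_neg hy]
      exact zero_le
  refine ne_top_of_le_ne_top ?_ hle
  rw [setLIntegral_const]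
  refine ENNReal.mul_ne_top ENNReal.ofReal_ne_top ?_
  rw [Measure.volume_eq_prod, Measure.prod_prod]
  exact ENNReal.mul_ne_top measure_closedBall_lt_top.ne measure_Icc_lt_top.ne

theorem Zf_eq {K : ℕ} {G : Eu K → ℝ} (hG : Measurable G) {C : ℝ}
    (hC : ∀ x, 0 ≤ G x ∧ G x ≤ C) (xb : Eu K) (P s : ℝ) :
    Zf G xb P s = (ZL G xb P s).toReal := by
  unfold Zf
  rw [integral_eq_lintegral_of_nonneg_ae]
  · unfold ZL
    congr 1
    refine lintegral_congr fun y => ?_
    split_ifs <;> simp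
  · refine Eventually.of_forall fun y => ?_
    show (0 : ℝ) ≤ if ‖y.1‖ ^ 2 + y.2 ^ 2 - 2 * ⟪y.1, xb⟫ + P ≤ s then G y.1 else 0
    split_ifs
    · exact (hC _).1
    · exact le_rfl
  · exact (Measurable.ite (measurableSet_le (measurable_quad xb P) measurable_const)
      (hG.comp measurable_fst) measurable_const).aestronglyMeasurable

/-- the functional as an integral over the sphere -/
theorem ZL_eq {K : ℕ} (hK : 2 ≤ K) {G : Eu K → ℝ} (hG : Measurable G)
    (hh : ∀ τ : ℝ, 0 < τ → ∀ x, G (τ • x) = G x) (xb : Eu K) (P s : ℝ) :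
    ZL G xb P s = ∫⁻ ω : sphere (0 : Eu K) 1, ENNReal.ofReal (G ω) *
      LL K 1 ⟪(ω : Eu K), xb⟫ (s - P) ∂((volume : Measure (Eu K)).toSphere) := by
  unfold ZL
  rw [Measure.volume_eq_prod, lintegral_prod _ (measurable_integrand hG xb P s).aemeasurable,
    lint_sphere hK _ (Measurable.lintegral_prod_right' (measurable_integrand hG xb P s))]
  refine lintegral_congr fun ω => ?_
  have hω : ‖(ω : Eu K)‖ = 1 := by
    have := ω.2
    rwa [mem_sphere_zero_iff_norm] at this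
  set b : ℝ := ⟪(ω : Eu K), xb⟫ with hb
  have hm : Measurable fun w : ℝ × ℝ => if 0 < w.1 ∧ 1 * w.1 ^ 2 - 2 * b * w.1 + w.2 ^ 2 ≤ s - P
      then ENNReal.ofReal (w.1 ^ (K - 1)) else 0 :=
    Measurable.ite (measurableSet_region 1 b (s - P))
      (ENNReal.measurable_ofReal.comp (by fun_prop)) measurable_const
  unfold LL
  rw [Measure.volume_eq_prod, lintegral_prod _ hm.aemeasurable,
    ← lintegral_const_mul _ (Measurable.lintegral_prod_right' hm)]
  have hind : (fun t : ℝ => ENNReal.ofReal (G ω) * ∫⁻ η : ℝ,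
      (if 0 < t ∧ 1 * t ^ 2 - 2 * b * t + η ^ 2 ≤ s - P
        then ENNReal.ofReal (t ^ (K - 1)) else 0)) =
      (Ioi (0 : ℝ)).indicator fun t : ℝ => ENNReal.ofReal (t ^ (K - 1)) *
        ∫⁻ η : ℝ, (if ‖t • (ω : Eu K)‖ ^ 2 + η ^ 2 - 2 * ⟪t • (ω : Eu K), xb⟫ + P ≤ s
          then ENNReal.ofReal (G (t • (ω : Eu K))) else 0) := by
    funext t
    by_cases ht : 0 < t
    · rw [indicator_of_mem (show t ∈ Ioi (0 : ℝ) from ht), hh t ht, norm_smul, hω, mul_one,
        Real.norm_eq_abs, sq_abs, real_inner_smul_left, ← hb]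
      have hm1 : Measurable fun η : ℝ => if 0 < t ∧ 1 * t ^ 2 - 2 * b * t + η ^ 2 ≤ s - P
          then ENNReal.ofReal (t ^ (K - 1)) else 0 :=
        hm.comp (by fun_prop : Measurable fun η : ℝ => (t, η))
      have hm2 : Measurable fun η : ℝ => if t ^ 2 + η ^ 2 - 2 * (t * b) + P ≤ s
          then ENNReal.ofReal (G ω) else 0 := by
        have : Measurable fun η : ℝ => t ^ 2 + η ^ 2 - 2 * (t * b) + P := by fun_prop
        exact Measurable.ite (measurableSet_le this measurable_const) measurable_const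
          measurable_const
      rw [← lintegral_const_mul _ hm1, ← lintegral_const_mul _ hm2]
      refine lintegral_congr fun η => ?_
      have e : (0 < t ∧ 1 * t ^ 2 - 2 * b * t + η ^ 2 ≤ s - P) ↔
          (t ^ 2 + η ^ 2 - 2 * (t * b) + P ≤ s) := by
        constructor
        · intro h
          linarith [h.2]
        · intro h
          exact ⟨ht, by linarith⟩
      by_cases hq : t ^ 2 + η ^ 2 - 2 * (t * b) + P ≤ s
      · rw [if_pos hq, if_pos (e.2 hq), mul_comm]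
      · rw [if_neg hq, if_neg (fun h => hq (e.1 h)), mul_zero, mul_zero]
    · rw [indicator_of_notMem (show t ∉ Ioi (0 : ℝ) from ht)]
      have : ∀ η : ℝ, (if 0 < t ∧ 1 * t ^ 2 - 2 * b * t + η ^ 2 ≤ s - P
        then ENNReal.ofReal (t ^ (K - 1)) else 0) = 0 := fun η => if_neg fun h => ht h.1
      simp only [this, lintegral_zero, mul_zero]
  rw [hind, lintegral_indicator measurableSet_Ioi]

theorem measurable_LL (K : ℕ) (S : ℝ) : Measurable fun b : ℝ => LL K 1 b S := by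
  unfold LL
  refine Measurable.lintegral_prod_right' (f := fun p : ℝ × (ℝ × ℝ) =>
    if 0 < p.2.1 ∧ 1 * p.2.1 ^ 2 - 2 * p.1 * p.2.1 + p.2.2 ^ 2 ≤ S
    then ENNReal.ofReal (p.2.1 ^ (K - 1)) else 0) ?_
  have h1 : Measurable fun p : ℝ × (ℝ × ℝ) => 1 * p.2.1 ^ 2 - 2 * p.1 * p.2.1 + p.2.2 ^ 2 := by
    fun_prop
  have h2 : Measurable fun p : ℝ × (ℝ × ℝ) => p.2.1 := by fun_prop
  have h3 : Measurable fun p : ℝ × (ℝ × ℝ) => ENNReal.ofReal (p.2.1 ^ (K - 1)) :=
    ENNReal.measurable_ofReal.comp (by fun_prop)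
  exact Measurable.ite ((measurableSet_lt measurable_const h2).inter
    (measurableSet_le h1 measurable_const)) h3 measurable_const

theorem cone (_hDISC : T_DISC) : T_CONE := by
  intro K hK G hG C hC hh xb P s ε hε
  rw [Zf_eq hG hC, Zf_eq hG hC, Zf_eq hG hC]
  have hmω : ∀ S : ℝ, Measurable fun ω : sphere (0 : Eu K) 1 => ENNReal.ofReal (G ω) *
      LL K 1 ⟪(ω : Eu K), xb⟫ S := by
    intro S
    have h1 : Measurable fun ω : sphere (0 : Eu K) 1 => ⟪(ω : Eu K), xb⟫ := by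
      have : Continuous fun ω : sphere (0 : Eu K) 1 => ⟪(ω : Eu K), xb⟫ := by fun_prop
      exact this.measurable
    exact (ENNReal.measurable_ofReal.comp (hG.comp measurable_subtype_coe)).mul
      ((measurable_LL K S).comp h1)
  have h : 2 * ZL G xb P (s + ε) ≤ ZL G xb P (s + 2 * ε) + ZL G xb P s := by
    rw [ZL_eq hK hG hh, ZL_eq hK hG hh, ZL_eq hK hG hh, ← lintegral_const_mul _ (hmω _),
      ← lintegral_add_left (hmω _)]
    refine lintegral_mono fun ω => ?_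
    show 2 * (ENNReal.ofReal (G ω) * LL K 1 ⟪(ω : Eu K), xb⟫ (s + ε - P)) ≤
      ENNReal.ofReal (G ω) * LL K 1 ⟪(ω : Eu K), xb⟫ (s + 2 * ε - P) +
        ENNReal.ofReal (G ω) * LL K 1 ⟪(ω : Eu K), xb⟫ (s - P)
    have h1 := disc_lint K hK 1 ⟪(ω : Eu K), xb⟫ (s - P) ε one_pos hε
    have e1 : s + ε - P = s - P + ε := by ring
    have e2 : s + 2 * ε - P = s - P + 2 * ε := by ring
    rw [e1, e2, ← mul_add, mul_left_comm]
    exact mul_le_mul_right h1 _
  have f0 := ZL_ne_top hC xb P s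
  have f2 := ZL_ne_top hC xb P (s + 2 * ε)
  have h' := ENNReal.toReal_mono (ENNReal.add_ne_top.2 ⟨f2, f0⟩) h
  rw [ENNReal.toReal_mul, ENNReal.toReal_add f2 f0] at h'
  simp only [ENNReal.toReal_ofNat] at h'
  linarith

end Pool.Agent.H42.KPO
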