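import Pool.Agent.H52.KP.Targets

set_option autoImplicit false

/-! Convexity of the radial integral (module DISC of kpo_modules). -/

open MeasureTheory Metric Set Topology Filter
open scoped RealInnerProductSpace ENNReal

namespace Pool.Agent.H42.KPO

open Pool.Agent.H52.KP

theorem lint_Ioc {a c : ℝ} (ha : 0 ≤ a) (hac : a ≤ c) :
    ∫⁻ r in Ioc a c, ENNReal.ofReal r = ENNReal.ofReal ((c ^ 2 - a ^ 2) / 2) := by
  rw [← ofReal_integral_eq_lintegral_ofReal]
  · rw [← intervalIntegral.integral_of_le hac, integral_id]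
  · exact (continuous_id.integrableOn_Icc (a := a) (b := c)).mono_set Ioc_subset_Icc_self
  · filter_upwards [ae_restrict_mem measurableSet_Ioc] with r hr
    exact ha.trans hr.1.le

/-- the one-dimensional statement -/
theorem core1 (m : ℝ → ℝ≥0∞) (hm : Measurable m) (hmono : ∀ x y, 0 ≤ x → x ≤ y → m x ≤ m y)
    (T ε : ℝ) (hε : 0 < ε) :
    2 * ∫⁻ r in Ioi (0 : ℝ), ENNReal.ofReal r * (if r ^ 2 ≤ T + ε then m r else 0) ≤
      (∫⁻ r in Ioi (0 : ℝ), ENNReal.ofReal r * (if r ^ 2 ≤ T + 2 * ε then m r else 0)) +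
      ∫⁻ r in Ioi (0 : ℝ), ENNReal.ofReal r * (if r ^ 2 ≤ T then m r else 0) := by
  by_cases hT : T + ε ≤ 0
  · have h0 : ∫⁻ r in Ioi (0 : ℝ), ENNReal.ofReal r * (if r ^ 2 ≤ T + ε then m r else 0) = 0 := by
      rw [setLIntegral_congr_fun (g := fun _ => 0) measurableSet_Ioi]
      · simp
      · intro r hr
        have hr' : (0 : ℝ) < r := hr
        have : ¬ r ^ 2 ≤ T + ε := by
          have := pow_pos hr' 2
          linarith
        simp [this]
    rw [h0, mul_zero]
    exact zero_le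
  push Not at hT
  have meas : ∀ S : ℝ, Measurable fun r : ℝ => ENNReal.ofReal r * (if r ^ 2 ≤ S then m r else 0) :=
    fun S => ENNReal.measurable_ofReal.mul
      (Measurable.ite (measurableSet_le (by fun_prop) measurable_const) hm measurable_const)
  have measI : ∀ a c : ℝ, Measurable fun r : ℝ =>
      ENNReal.ofReal r * (if a < r ∧ r ≤ c then m r else 0) := fun a c =>
    ENNReal.measurable_ofReal.mul (Measurable.ite
      ((measurableSet_lt measurable_const measurable_id).inter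
        (measurableSet_le measurable_id measurable_const)) hm measurable_const)
  -- decomposition
  have dec : ∀ S S' : ℝ, S ≤ S' → ∫⁻ r in Ioi (0 : ℝ), ENNReal.ofReal r *
      (if r ^ 2 ≤ S' then m r else 0) =
      (∫⁻ r in Ioi (0 : ℝ), ENNReal.ofReal r * (if r ^ 2 ≤ S then m r else 0)) +
      ∫⁻ r in Ioi (0 : ℝ), ENNReal.ofReal r *
        (if Real.sqrt S < r ∧ r ≤ Real.sqrt S' then m r else 0) := by
    intro S S' hSS
    rw [← lintegral_add_left (meas S)]
    refine setLIntegral_congr_fun measurableSet_Ioi fun r hr => ?_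
    have hr' : (0 : ℝ) < r := hr
    have e1 : ∀ Q : ℝ, r ^ 2 ≤ Q ↔ r ≤ Real.sqrt Q := by
      intro Q
      constructor
      · exact fun h => Real.le_sqrt_of_sq_le h
      · intro h
        by_contra hc
        push Not at hc
        rcases le_or_gt 0 Q with hQ | hQ
        · have := Real.sq_sqrt hQ
          have h2 := pow_le_pow_left₀ hr'.le h 2
          linarith
        · rw [Real.sqrt_eq_zero_of_nonpos hQ.le] at h
          linarith
    show ENNReal.ofReal r * (if r ^ 2 ≤ S' then m r else 0) = ENNReal.ofReal r *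
      (if r ^ 2 ≤ S then m r else 0) + ENNReal.ofReal r *
        (if Real.sqrt S < r ∧ r ≤ Real.sqrt S' then m r else 0)
    rw [← mul_add]
    congr 1
    by_cases h1 : r ^ 2 ≤ S
    · have h2 : r ^ 2 ≤ S' := h1.trans hSS
      have h3 : ¬ (Real.sqrt S < r ∧ r ≤ Real.sqrt S') := fun h => absurd ((e1 S).1 h1)
        (not_le.2 h.1)
      rw [if_pos h1, if_pos h2, if_neg h3, add_zero]
    · by_cases h2 : r ^ 2 ≤ S'
      · have h3 : Real.sqrt S < r ∧ r ≤ Real.sqrt S' :=
          ⟨not_le.1 fun h => h1 ((e1 S).2 h), (e1 S').1 h2⟩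
        rw [if_neg h1, if_pos h2, if_pos h3, zero_add]
      · have h3 : ¬ (Real.sqrt S < r ∧ r ≤ Real.sqrt S') := fun h => h2 ((e1 S').2 h.2)
        rw [if_neg h1, if_neg h2, if_neg h3, zero_add]
  have toIoc : ∀ a c : ℝ, 0 ≤ a → ∫⁻ r in Ioi (0 : ℝ), ENNReal.ofReal r *
      (if a < r ∧ r ≤ c then m r else 0) = ∫⁻ r in Ioc a c, ENNReal.ofReal r * m r := by
    intro a c ha
    have h1 : (fun r : ℝ => ENNReal.ofReal r * (if a < r ∧ r ≤ c then m r else 0)) =
        (Ioc a c).indicator fun r => ENNReal.ofReal r * m r := by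
      funext r
      by_cases h : r ∈ Ioc a c
      · rw [indicator_of_mem h, if_pos (show a < r ∧ r ≤ c from h)]
      · rw [indicator_of_notMem h, if_neg (show ¬ (a < r ∧ r ≤ c) from h), mul_zero]
    rw [h1, lintegral_indicator measurableSet_Ioc, Measure.restrict_restrict measurableSet_Ioc]
    congr 2
    ext r
    exact ⟨fun h => h.1, fun h => ⟨h, lt_of_le_of_lt ha h.1⟩⟩
  have hTε : 0 ≤ T + ε := hT.le
  have hT2 : 0 ≤ T + 2 * ε := by linarith
  set a := Real.sqrt T with ha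
  set c := Real.sqrt (T + ε) with hc
  set d := Real.sqrt (T + 2 * ε) with hd
  have ha0 : 0 ≤ a := Real.sqrt_nonneg _
  have hc0 : 0 ≤ c := Real.sqrt_nonneg _
  have hac : a ≤ c := Real.sqrt_le_sqrt (by linarith)
  have hcd : c ≤ d := Real.sqrt_le_sqrt (by linarith)
  have hc2 : c ^ 2 = T + ε := Real.sq_sqrt hTε
  have hd2 : d ^ 2 = T + 2 * ε := Real.sq_sqrt hT2
  have ha2 : T ≤ a ^ 2 := by
    rcases le_or_gt 0 T with h | h
    · exact (Real.sq_sqrt h).ge
    · nlinarith [sq_nonneg a]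
  have B1 : ∫⁻ r in Ioc a c, ENNReal.ofReal r * m r ≤ ENNReal.ofReal (ε / 2) * m c := by
    calc ∫⁻ r in Ioc a c, ENNReal.ofReal r * m r ≤ ∫⁻ r in Ioc a c, ENNReal.ofReal r * m c := by
          refine setLIntegral_mono (ENNReal.measurable_ofReal.mul_const _) fun r hr => ?_
          exact mul_le_mul_right (hmono r c (ha0.trans hr.1.le) hr.2) _
      _ = (∫⁻ r in Ioc a c, ENNReal.ofReal r) * m c :=
          lintegral_mul_const _ ENNReal.measurable_ofReal
      _ ≤ ENNReal.ofReal (ε / 2) * m c := by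
          rw [lint_Ioc ha0 hac]
          refine mul_le_mul_left (ENNReal.ofReal_le_ofReal ?_) _
          linarith
  have B2 : ENNReal.ofReal (ε / 2) * m c ≤ ∫⁻ r in Ioc c d, ENNReal.ofReal r * m r := by
    calc ENNReal.ofReal (ε / 2) * m c = (∫⁻ r in Ioc c d, ENNReal.ofReal r) * m c := by
          rw [lint_Ioc hc0 hcd, hc2, hd2]
          congr 2
          ring
      _ = ∫⁻ r in Ioc c d, ENNReal.ofReal r * m c :=
          (lintegral_mul_const _ ENNReal.measurable_ofReal).symm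
      _ ≤ ∫⁻ r in Ioc c d, ENNReal.ofReal r * m r := by
          refine setLIntegral_mono (ENNReal.measurable_ofReal.mul hm) fun r hr => ?_
          exact mul_le_mul_right (hmono c r hc0 hr.1.le) _
  have d1 := dec T (T + ε) (by linarith)
  have d2 := dec (T + ε) (T + 2 * ε) (by linarith)
  rw [toIoc _ _ ha0] at d1
  rw [toIoc _ _ hc0] at d2
  rw [d2, two_mul]
  nth_rewrite 2 [d1]
  calc _ ≤ (∫⁻ r in Ioi (0 : ℝ), ENNReal.ofReal r * (if r ^ 2 ≤ T + ε then m r else 0)) +
      ((∫⁻ r in Ioi (0 : ℝ), ENNReal.ofReal r * (if r ^ 2 ≤ T then m r else 0)) +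
        ∫⁻ r in Ioc c d, ENNReal.ofReal r * m r) :=
        add_le_add_right (add_le_add_right (B1.trans B2) _) _
    _ = _ := by ring

/-- the two-dimensional statement -/
theorem core2 (G : ℝ → ℝ≥0∞) (hG : Measurable G)
    (hmono : ∀ x y, 0 ≤ x → x ≤ y → G x + G (-x) ≤ G y + G (-y)) (T ε : ℝ) (hε : 0 < ε) :
    2 * ∫⁻ z : ℝ × ℝ, (if z.1 ^ 2 + z.2 ^ 2 ≤ T + ε then G z.1 else 0) ≤
      (∫⁻ z : ℝ × ℝ, if z.1 ^ 2 + z.2 ^ 2 ≤ T + 2 * ε then G z.1 else 0) +
      ∫⁻ z : ℝ × ℝ, if z.1 ^ 2 + z.2 ^ 2 ≤ T then G z.1 else 0 := by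
  have measR : ∀ (F : ℝ → ℝ≥0∞) (S : ℝ), Measurable F →
      Measurable fun z : ℝ × ℝ => if z.1 ^ 2 + z.2 ^ 2 ≤ S then F z.1 else 0 := fun F S hF =>
    Measurable.ite (measurableSet_le (by fun_prop) measurable_const) (hF.comp measurable_fst)
      measurable_const
  -- symmetrisation
  have sym : ∀ S : ℝ, (∫⁻ z : ℝ × ℝ, if z.1 ^ 2 + z.2 ^ 2 ≤ S then G z.1 + G (-z.1) else 0) =
      2 * ∫⁻ z : ℝ × ℝ, if z.1 ^ 2 + z.2 ^ 2 ≤ S then G z.1 else 0 := by
    intro S
    have h1 : (∫⁻ z : ℝ × ℝ, if z.1 ^ 2 + z.2 ^ 2 ≤ S then G (-z.1) else 0) =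
        ∫⁻ z : ℝ × ℝ, if z.1 ^ 2 + z.2 ^ 2 ≤ S then G z.1 else 0 := by
      rw [← lintegral_neg_eq_self (fun z : ℝ × ℝ => if z.1 ^ 2 + z.2 ^ 2 ≤ S then G z.1 else 0)]
      refine lintegral_congr fun z => ?_
      simp
    have h2 : (∫⁻ z : ℝ × ℝ, if z.1 ^ 2 + z.2 ^ 2 ≤ S then G z.1 + G (-z.1) else 0) =
        (∫⁻ z : ℝ × ℝ, if z.1 ^ 2 + z.2 ^ 2 ≤ S then G z.1 else 0) +
        ∫⁻ z : ℝ × ℝ, if z.1 ^ 2 + z.2 ^ 2 ≤ S then G (-z.1) else 0 := by
      rw [← lintegral_add_left (measR G S hG)]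
      refine lintegral_congr fun z => ?_
      split_ifs <;> simp
    rw [h2, h1, two_mul]
  -- polar coordinates
  have pol : ∀ S : ℝ, (∫⁻ z : ℝ × ℝ, if z.1 ^ 2 + z.2 ^ 2 ≤ S then G z.1 + G (-z.1) else 0) =
      ∫⁻ θ in Ioo (-Real.pi) Real.pi, ∫⁻ r in Ioi (0 : ℝ), ENNReal.ofReal r *
        (if r ^ 2 ≤ S then G (r * Real.cos θ) + G (-(r * Real.cos θ)) else 0) := by
    intro S
    rw [← lintegral_comp_polarCoord_symm, polarCoord_target, Measure.volume_eq_prod,
      ← Measure.prod_restrict, lintegral_prod_symm]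
    · refine lintegral_congr fun θ => lintegral_congr fun r => ?_
      have e : (r * Real.cos θ) ^ 2 + (r * Real.sin θ) ^ 2 = r ^ 2 := by
        have := Real.sin_sq_add_cos_sq θ
        nlinarith
      simp only [polarCoord_symm_apply, e, smul_eq_mul]
    · refine Measurable.aemeasurable ?_
      have h1 : Measurable fun z : ℝ × ℝ =>
          if z.1 ^ 2 + z.2 ^ 2 ≤ S then G z.1 + G (-z.1) else 0 :=
        measR (fun x => G x + G (-x)) S (hG.add (hG.comp measurable_neg))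
      have h2 : Measurable fun p : ℝ × ℝ => polarCoord.symm p := by
        have : (fun p : ℝ × ℝ => polarCoord.symm p) =
            fun p : ℝ × ℝ => (p.1 * Real.cos p.2, p.1 * Real.sin p.2) := by
          funext p
          exact polarCoord_symm_apply p
        rw [this]
        fun_prop
      exact (ENNReal.measurable_ofReal.comp measurable_fst).smul (h1.comp h2)
  -- the inequality for the symmetrised function
  have key : 2 * (∫⁻ z : ℝ × ℝ, if z.1 ^ 2 + z.2 ^ 2 ≤ T + ε then G z.1 + G (-z.1) else 0) ≤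
      (∫⁻ z : ℝ × ℝ, if z.1 ^ 2 + z.2 ^ 2 ≤ T + 2 * ε then G z.1 + G (-z.1) else 0) +
      ∫⁻ z : ℝ × ℝ, if z.1 ^ 2 + z.2 ^ 2 ≤ T then G z.1 + G (-z.1) else 0 := by
    rw [pol, pol, pol]
    have measθ : ∀ S : ℝ, Measurable fun θ : ℝ => ∫⁻ r in Ioi (0 : ℝ), ENNReal.ofReal r *
        (if r ^ 2 ≤ S then G (r * Real.cos θ) + G (-(r * Real.cos θ)) else 0) := by
      intro S
      refine Measurable.lintegral_prod_right' (f := fun p : ℝ × ℝ => ENNReal.ofReal p.2 *
        (if p.2 ^ 2 ≤ S then G (p.2 * Real.cos p.1) + G (-(p.2 * Real.cos p.1)) else 0)) ?_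
      have hsq : Measurable fun p : ℝ × ℝ => p.2 ^ 2 := by fun_prop
      have hmm : Measurable fun p : ℝ × ℝ => p.2 * Real.cos p.1 := by fun_prop
      exact (ENNReal.measurable_ofReal.comp measurable_snd).mul (Measurable.ite
        (measurableSet_le hsq measurable_const) ((hG.comp hmm).add (hG.comp hmm.neg))
        measurable_const)
    rw [← lintegral_const_mul _ (measθ _), ← lintegral_add_left (measθ _)]
    refine lintegral_mono fun θ => ?_
    have hmr : Measurable fun r : ℝ => r * Real.cos θ := by fun_prop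
    refine core1 (fun r => G (r * Real.cos θ) + G (-(r * Real.cos θ)))
      ((hG.comp hmr).add (hG.comp hmr.neg)) ?_ T ε hε
    intro x y hx hxy
    have habs : ∀ w : ℝ, G w + G (-w) = G |w| + G (-|w|) := by
      intro w
      rcases abs_cases w with ⟨h, -⟩ | ⟨h, -⟩
      · rw [h]
      · rw [h, neg_neg, add_comm]
    show G (x * Real.cos θ) + G (-(x * Real.cos θ)) ≤ G (y * Real.cos θ) + G (-(y * Real.cos θ))
    rw [habs (x * Real.cos θ), habs (y * Real.cos θ)]
    refine hmono _ _ (abs_nonneg _) ?_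
    rw [abs_mul, abs_mul, abs_of_nonneg hx, abs_of_nonneg (hx.trans hxy)]
    exact mul_le_mul_of_nonneg_right hxy (abs_nonneg _)
  rw [sym, sym, sym, ← mul_add] at key
  exact (ENNReal.mul_le_mul_iff_right two_ne_zero ENNReal.ofNat_ne_top).1 key

/-- the integral of the module, as a lower integral -/
noncomputable def LL (K : ℕ) (A b S : ℝ) : ℝ≥0∞ :=
  ∫⁻ w : ℝ × ℝ, if 0 < w.1 ∧ A * w.1 ^ 2 - 2 * b * w.1 + w.2 ^ 2 ≤ S
    then ENNReal.ofReal (w.1 ^ (K - 1)) else 0

theorem measurableSet_region (A b S : ℝ) :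
    MeasurableSet {w : ℝ × ℝ | 0 < w.1 ∧ A * w.1 ^ 2 - 2 * b * w.1 + w.2 ^ 2 ≤ S} := by
  have h : Measurable fun w : ℝ × ℝ => A * w.1 ^ 2 - 2 * b * w.1 + w.2 ^ 2 := by fun_prop
  exact (measurableSet_lt measurable_const measurable_fst).inter
    (measurableSet_le h measurable_const)

theorem LL_ne_top (K : ℕ) (A b S : ℝ) (hA : 0 < A) : LL K A b S ≠ ⊤ := by
  -- a bound for the region
  have hsub : ∃ R : ℝ, ∀ w : ℝ × ℝ, 0 < w.1 ∧ A * w.1 ^ 2 - 2 * b * w.1 + w.2 ^ 2 ≤ S →
      w ∈ Icc (0 : ℝ) R ×ˢ Icc (-R) R := by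
    refine ⟨(1 + |S| + b ^ 2 / A) + (1 + (2 * |b| + |S| + 1) / A), fun w hw => ?_⟩
    obtain ⟨h0, h1⟩ := hw
    have hAinv : 0 < 1 / A := by positivity
    have hbA : 0 ≤ b ^ 2 / A := by positivity
    have hq : 0 ≤ (2 * |b| + |S| + 1) / A := by positivity
    have e1 : A * w.1 ^ 2 - 2 * b * w.1 = A * (w.1 - b / A) ^ 2 - b ^ 2 / A := by
      field_simp
      ring
    have h2 : w.2 ^ 2 ≤ |S| + b ^ 2 / A := by
      have := mul_nonneg hA.le (sq_nonneg (w.1 - b / A))
      have := le_abs_self S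
      linarith
    have h3 : w.1 ≤ 1 + (2 * |b| + |S| + 1) / A := by
      by_contra hc
      push Not at hc
      have h4 : 1 < w.1 := by linarith
      have h5 : (2 * |b| + |S| + 1) / A < w.1 := by linarith
      rw [div_lt_iff₀ hA] at h5
      have h6 : b * w.1 ≤ |b| * w.1 := mul_le_mul_of_nonneg_right (le_abs_self b) h0.le
      have h7 := le_abs_self S
      have h8 : (2 * |b| + |S| + 1) * w.1 < w.1 * A * w.1 := mul_lt_mul_of_pos_right h5 h0
      have h9 : |S| ≤ |S| * w.1 := le_mul_of_one_le_right (abs_nonneg S) h4.le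
      nlinarith [sq_nonneg w.2]
    have h10 : |w.2| ≤ 1 + |S| + b ^ 2 / A := by
      have hx : |w.2| ^ 2 ≤ |S| + b ^ 2 / A := by rwa [sq_abs]
      by_contra hc
      push Not at hc
      have : 0 ≤ |S| := abs_nonneg S
      nlinarith [abs_nonneg w.2]
    have h11 := abs_le.1 h10
    have hS0 : 0 ≤ |S| := abs_nonneg S
    exact ⟨⟨h0.le, by linarith⟩, ⟨by linarith [h11.1], by linarith [h11.2]⟩⟩
  obtain ⟨R, hR⟩ := hsub
  have hle : LL K A b S ≤ ∫⁻ _w in Icc (0 : ℝ) R ×ˢ Icc (-R) R, ENNReal.ofReal (R ^ (K - 1)) := by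
    rw [← lintegral_indicator (measurableSet_Icc.prod measurableSet_Icc)]
    refine lintegral_mono fun w => ?_
    by_cases hw : 0 < w.1 ∧ A * w.1 ^ 2 - 2 * b * w.1 + w.2 ^ 2 ≤ S
    · show (if 0 < w.1 ∧ A * w.1 ^ 2 - 2 * b * w.1 + w.2 ^ 2 ≤ S
        then ENNReal.ofReal (w.1 ^ (K - 1)) else 0) ≤ _
      rw [if_pos hw, indicator_of_mem (hR w hw)]
      exact ENNReal.ofReal_le_ofReal (pow_le_pow_left₀ hw.1.le (hR w hw).1.2 _)
    · show (if 0 < w.1 ∧ A * w.1 ^ 2 - 2 * b * w.1 + w.2 ^ 2 ≤ S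
        then ENNReal.ofReal (w.1 ^ (K - 1)) else 0) ≤ _
      rw [if_neg hw]
      exact zero_le
  refine ne_top_of_le_ne_top ?_ hle
  rw [setLIntegral_const]
  refine ENNReal.mul_ne_top ENNReal.ofReal_ne_top ?_
  rw [Measure.volume_eq_prod, Measure.prod_prod]
  exact ENNReal.mul_ne_top measure_Icc_lt_top.ne measure_Icc_lt_top.ne

/-- affine substitution -/
theorem lint_affine (f : ℝ → ℝ≥0∞) (hf : Measurable f) {α : ℝ} (hα : 0 < α) (β : ℝ) :
    ∫⁻ x : ℝ, f ((x + β) / α) = ENNReal.ofReal α * ∫⁻ x : ℝ, f x := by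
  have h1 : ∫⁻ x : ℝ, f ((x + β) / α) = ∫⁻ x : ℝ, f (x / α) :=
    lintegral_add_right_eq_self (fun x => f (x / α)) β
  have h2 : ∫⁻ x : ℝ, f (x / α) = ∫⁻ y, f y ∂(Measure.map (fun x : ℝ => α⁻¹ * x) volume) := by
    rw [lintegral_map hf (measurable_const_mul _)]
    refine lintegral_congr fun x => ?_
    rw [div_eq_inv_mul]
  rw [h1, h2, Real.map_volume_mul_left (inv_ne_zero hα.ne'), lintegral_smul_measure, inv_inv,
    abs_of_pos hα]
  rfl

theorem disc_lint (K : ℕ) (hK : 2 ≤ K) (A b S ε : ℝ) (hA : 0 < A) (hε : 0 < ε) :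
    2 * LL K A b (S + ε) ≤ LL K A b (S + 2 * ε) + LL K A b S := by
  set α := Real.sqrt A with hα
  have hα0 : 0 < α := Real.sqrt_pos.2 hA
  have hα2 : α ^ 2 = A := Real.sq_sqrt hA.le
  set β := b / α with hβ
  have hb : b = β * α := by rw [hβ]; field_simp
  let g : ℝ → ℝ := fun x => (max ((x + β) / α) 0) ^ (K - 1)
  let G : ℝ → ℝ≥0∞ := fun x => ENNReal.ofReal (g x)
  have hgc : Continuous g := by fun_prop
  have hGm : Measurable G := ENNReal.measurable_ofReal.comp hgc.measurable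
  have hg0 : ∀ x, 0 ≤ g x := fun x => pow_nonneg (le_max_right _ _) _
  have hconv : ConvexOn ℝ univ g := by
    have h1 : ConvexOn ℝ univ fun x : ℝ => (x + β) / α := by
      refine ⟨convex_univ, fun x _ y _ a b ha hb hab => ?_⟩
      show (a * x + b * y + β) / α ≤ a * ((x + β) / α) + b * ((y + β) / α)
      have : (a * x + b * y + β) = a * (x + β) + b * (y + β) := by
        have : β = (a + b) * β := by rw [hab, one_mul]
        nth_rewrite 1 [this]
        ring
      rw [this]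
      apply le_of_eq
      ring
    have h2 : ConvexOn ℝ univ fun x : ℝ => max ((x + β) / α) 0 :=
      h1.sup (convexOn_const 0 convex_univ)
    exact h2.pow (fun x _ => le_max_right _ _) _
  have hcv := hconv.2
  have hmono : ∀ x y, 0 ≤ x → x ≤ y → G x + G (-x) ≤ G y + G (-y) := by
    intro x y hx hxy
    show ENNReal.ofReal (g x) + ENNReal.ofReal (g (-x)) ≤
      ENNReal.ofReal (g y) + ENNReal.ofReal (g (-y))
    rw [← ENNReal.ofReal_add (hg0 _) (hg0 _), ← ENNReal.ofReal_add (hg0 _) (hg0 _)]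
    apply ENNReal.ofReal_le_ofReal
    rcases hx.eq_or_lt with rfl | hx'
    · rcases hxy.eq_or_lt with rfl | hy
      · exact le_rfl
      · have h := @hcv y (mem_univ y) (-y) (mem_univ (-y)) (1 / 2) (1 / 2) (by norm_num)
          (by norm_num) (by norm_num)
        have e : (1 / 2 : ℝ) • y + (1 / 2 : ℝ) • (-y) = 0 := by simp
        rw [e] at h
        simp only [smul_eq_mul] at h
        rw [neg_zero]
        linarith
    · have hy : 0 < y := hx'.trans_le hxy
      have hs : (1 + x / y) / 2 + (1 - x / y) / 2 = 1 := by ring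
      have hxy1 : x / y ≤ 1 := (div_le_one hy).2 hxy
      have hxy0 : 0 ≤ x / y := by positivity
      have h1 := @hcv y (mem_univ y) (-y) (mem_univ (-y)) ((1 + x / y) / 2)
        ((1 - x / y) / 2) (by linarith) (by linarith) hs
      have h2 := @hcv (-y) (mem_univ (-y)) y (mem_univ y) ((1 + x / y) / 2)
        ((1 - x / y) / 2) (by linarith) (by linarith) hs
      have e1 : ((1 + x / y) / 2 : ℝ) • y + ((1 - x / y) / 2 : ℝ) • (-y) = x := by
        simp only [smul_eq_mul]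
        field_simp
        ring
      have e2 : ((1 + x / y) / 2 : ℝ) • (-y) + ((1 - x / y) / 2 : ℝ) • y = -x := by
        simp only [smul_eq_mul]
        field_simp
        ring
      rw [e1] at h1
      rw [e2] at h2
      simp only [smul_eq_mul] at h1 h2
      nlinarith [hg0 y, hg0 (-y)]
  have conv : ∀ S : ℝ, (∫⁻ z : ℝ × ℝ, if z.1 ^ 2 + z.2 ^ 2 ≤ S + β ^ 2 then G z.1 else 0) =
      ENNReal.ofReal α * LL K A b S := by
    intro S
    have hm1 : Measurable fun z : ℝ × ℝ => if z.1 ^ 2 + z.2 ^ 2 ≤ S + β ^ 2 then G z.1 else 0 :=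
      Measurable.ite (measurableSet_le (by fun_prop) measurable_const) (hGm.comp measurable_fst)
        measurable_const
    have hm2 : Measurable fun w : ℝ × ℝ => if 0 < w.1 ∧ A * w.1 ^ 2 - 2 * b * w.1 + w.2 ^ 2 ≤ S
        then ENNReal.ofReal (w.1 ^ (K - 1)) else 0 :=
      Measurable.ite (measurableSet_region A b S)
        (ENNReal.measurable_ofReal.comp (by fun_prop)) measurable_const
    unfold LL
    rw [Measure.volume_eq_prod, lintegral_prod_symm _ hm1.aemeasurable,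
      lintegral_prod_symm _ hm2.aemeasurable,
      ← lintegral_const_mul _ (Measurable.lintegral_prod_left' hm2)]
    refine lintegral_congr fun y => ?_
    have hm3 : Measurable fun x : ℝ => if 0 < x ∧ A * x ^ 2 - 2 * b * x + y ^ 2 ≤ S
        then ENNReal.ofReal (x ^ (K - 1)) else 0 := hm2.comp (by fun_prop : Measurable fun x : ℝ => (x, y))
    rw [← lint_affine _ hm3 hα0 β]
    refine lintegral_congr fun x => ?_
    have e : A * ((x + β) / α) ^ 2 - 2 * b * ((x + β) / α) = x ^ 2 - β ^ 2 := by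
      rw [hb, ← hα2]
      field_simp
      ring
    have e' : (A * ((x + β) / α) ^ 2 - 2 * b * ((x + β) / α) + y ^ 2 ≤ S) ↔
        (x ^ 2 + y ^ 2 ≤ S + β ^ 2) := by
      rw [e]
      constructor <;> intro h <;> linarith
    show (if x ^ 2 + y ^ 2 ≤ S + β ^ 2 then G x else 0) =
      (if 0 < (x + β) / α ∧ A * ((x + β) / α) ^ 2 - 2 * b * ((x + β) / α) + y ^ 2 ≤ S
        then ENNReal.ofReal (((x + β) / α) ^ (K - 1)) else 0)
    by_cases hp : 0 < (x + β) / α
    · have hgx : G x = ENNReal.ofReal (((x + β) / α) ^ (K - 1)) := by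
        show ENNReal.ofReal ((max ((x + β) / α) 0) ^ (K - 1)) = _
        rw [max_eq_left hp.le]
      by_cases hq : x ^ 2 + y ^ 2 ≤ S + β ^ 2
      · rw [if_pos hq, if_pos ⟨hp, e'.2 hq⟩, hgx]
      · rw [if_neg hq, if_neg (fun h => hq (e'.1 h.2))]
    · have hgx : G x = 0 := by
        show ENNReal.ofReal ((max ((x + β) / α) 0) ^ (K - 1)) = _
        rw [max_eq_right (not_lt.1 hp), zero_pow (by omega), ENNReal.ofReal_zero]
      rw [hgx, ite_self, if_neg (fun h => hp h.1)]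
  have h := core2 G hGm hmono (S + β ^ 2) ε hε
  have e1 : S + β ^ 2 + ε = (S + ε) + β ^ 2 := by ring
  have e2 : S + β ^ 2 + 2 * ε = (S + 2 * ε) + β ^ 2 := by ring
  rw [e1, e2, conv, conv, conv, ← mul_add, mul_left_comm] at h
  exact (ENNReal.mul_le_mul_iff_right (ENNReal.ofReal_pos.2 hα0).ne' ENNReal.ofReal_ne_top).1 h

theorem integral_eq_LL (K : ℕ) (A b S : ℝ) :
    (∫ w : ℝ × ℝ, if 0 < w.1 ∧ A * w.1 ^ 2 - 2 * b * w.1 + w.2 ^ 2 ≤ S
        then w.1 ^ (K - 1) else 0) = (LL K A b S).toReal := by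
  rw [integral_eq_lintegral_of_nonneg_ae]
  · unfold LL
    congr 1
    refine lintegral_congr fun w => ?_
    split_ifs <;> simp
  · refine Eventually.of_forall fun w => ?_
    show (0 : ℝ) ≤ if 0 < w.1 ∧ A * w.1 ^ 2 - 2 * b * w.1 + w.2 ^ 2 ≤ S
        then w.1 ^ (K - 1) else 0
    split_ifs with h
    · exact pow_nonneg h.1.le _
    · exact le_rfl
  · exact (Measurable.ite (measurableSet_region A b S) (by fun_prop)
      measurable_const).aestronglyMeasurable

theorem disc : T_DISC := by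
  intro K hK A b S ε hA hε
  rw [integral_eq_LL, integral_eq_LL, integral_eq_LL]
  have h := disc_lint K hK A b S ε hA hε
  have f0 := LL_ne_top K A b S hA
  have f1 := LL_ne_top K A b (S + ε) hA
  have f2 := LL_ne_top K A b (S + 2 * ε) hA
  have h' := ENNReal.toReal_mono (ENNReal.add_ne_top.2 ⟨f2, f0⟩) h
  rw [ENNReal.toReal_mul, ENNReal.toReal_add f2 f0] at h'
  simp only [ENNReal.toReal_ofNat] at h'
  linarith

end Pool.Agent.H42.KPO
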